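import Pool.Agent.W593.ZT.Stm

/-! Project ZT (MP_12e153_co): the Davenport constant of a quotient. -/

open scoped Classical

set_option autoImplicit false

namespace Pool.Agent.W862.ZT

open Pool.Agent.W593.ZT

theorem dav : S_DAV := by
  intro V G _ _ S Q d hQ
  obtain ⟨Q', hQ'Q, hQ'c⟩ := Finset.exists_subset_card_eq hQ
  -- enumerate
  let e := Q'.equivFin
  let n := Q'.card
  let f : Fin (n + 1) → G ⧸ S := fun k =>
    ((∑ h ∈ Q'.attach.filter (fun h => ((e h : Fin n) : ℕ) < (k : ℕ)), d h.1 : G) : G ⧸ S)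
  have hcard : Fintype.card (G ⧸ S) < Fintype.card (Fin (n + 1)) := by
    rw [Fintype.card_fin, ← Nat.card_eq_fintype_card]
    have : Nat.card (G ⧸ S) = S.index := rfl
    omega
  obtain ⟨i, j, hij, hf⟩ := Fintype.exists_ne_map_eq_of_card_lt f hcard
  wlog hlt : (i : ℕ) < (j : ℕ) generalizing i j with H
  · refine H j i hij.symm hf.symm ?_
    rcases Nat.lt_or_gt_of_ne (fun h => hij (Fin.ext h)) with h | h
    · exact absurd h hlt
    · exact h
  let I0 := Q'.attach.filter (fun h => (i : ℕ) ≤ ((e h : Fin n) : ℕ) ∧ ((e h : Fin n) : ℕ) < (j : ℕ))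
  have hsplit : Q'.attach.filter (fun h => ((e h : Fin n) : ℕ) < (j : ℕ)) =
      (Q'.attach.filter (fun h => ((e h : Fin n) : ℕ) < (i : ℕ))) ∪ I0 := by
    ext h
    simp only [Finset.mem_filter, Finset.mem_union, I0, Finset.mem_attach, true_and]
    omega
  have hdisj : Disjoint (Q'.attach.filter (fun h => ((e h : Fin n) : ℕ) < (i : ℕ))) I0 := by
    rw [Finset.disjoint_left]
    intro h h1 h2
    simp only [Finset.mem_filter, I0] at h1 h2
    omega
  have hsum : ∑ h ∈ I0, d h.1 ∈ S := by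
    have h1 := QuotientAddGroup.eq.mp hf
    rw [hsplit, Finset.sum_union hdisj] at h1
    simpa using h1
  refine ⟨I0.map (Function.Embedding.subtype _), ?_, ?_, ?_, ?_⟩
  · intro x hx
    rw [Finset.mem_map] at hx
    obtain ⟨y, _, rfl⟩ := hx
    exact hQ'Q y.2
  · rw [Finset.map_nonempty]
    have hin : (i : ℕ) < n := by have := j.2; omega
    refine ⟨e.symm ⟨i, hin⟩, ?_⟩
    simp only [I0, Finset.mem_filter, Finset.mem_attach, true_and, Equiv.apply_symm_apply]
    exact ⟨le_rfl, hlt⟩
  · rw [Finset.card_map]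
    calc I0.card ≤ Q'.attach.card := Finset.card_filter_le _ _
      _ = S.index := by rw [Finset.card_attach, hQ'c]
  · rw [Finset.sum_map]
    exact hsum

end Pool.Agent.W862.ZT
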