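import Pool.Agent.W593.ZT.Stm

/-! Project ZT (MP_12e153_co): full cover or a minimal bad subgroup. -/

open scoped Classical

set_option autoImplicit false

namespace Pool.Agent.W862.ZT

open Pool.Agent.W593.ZT

theorem sub : S_SUB := by
  intro V G _ _ T L0 d hT hL0 hd
  by_cases hbad : ∃ R : AddSubgroup G, T ≤ R ∧ R ≠ ⊤ ∧
      (L0.filter (fun z => d z ∉ R)).card + 2 ≤ R.index
  · right
    obtain ⟨S1, hS1, hmin⟩ := WellFounded.has_min
      (wellFounded_lt : WellFounded ((· < ·) : AddSubgroup G → AddSubgroup G → Prop))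
      {R : AddSubgroup G | T ≤ R ∧ R ≠ ⊤ ∧ (L0.filter (fun z => d z ∉ R)).card + 2 ≤ R.index}
      hbad
    obtain ⟨hTS, hne, hb⟩ := hS1
    refine ⟨S1, lt_of_le_of_ne hTS ?_, hne, hb, ?_⟩
    · rintro rfl
      have : L0.filter (fun z => d z ∉ T) = L0 := Finset.filter_true_of_mem hd
      rw [this] at hb
      omega
    · intro R hTR hR
      by_contra hcon
      refine hmin R ⟨hTR, ?_, by omega⟩ hR
      rintro rfl
      exact absurd (le_top : S1 ≤ ⊤) (not_le_of_gt hR)
  · left
    intro R hTR hR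
    by_contra hcon
    exact hbad ⟨R, hTR, hR, by omega⟩

end Pool.Agent.W862.ZT
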